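import Pool.Agent.H23.LC.Targets
import Pool.Agent.H25.HK.Targets
import Pool.Agent.H27.TM.TargetsA
import Pool.Agent.H29.DW.Targets
import Pool.Agent.H29.DW.Tools
import Pool.Agent.H29.TC.Targets
import Pool.Agent.H23.SM.Targets

/-! Board sm2_modules, module LT: the mean square of a class (copy of H19/TMB/LT). -/

set_option autoImplicit false
set_option linter.unusedVariables false
set_option linter.unusedSectionVars false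

open NumberField NumberField.InfinitePlace NumberField.Units
  NumberField.Units.dirichletUnitTheorem MeasureTheory Set Filter Complex
open scoped nonZeroDivisors ENNReal

namespace Pool.Agent.H70.SM.LT

open Pool.Agent.H25.HK Pool.Agent.H23.LB Pool.Agent.H23.LC Pool.Agent.H27.TM Pool.Agent.H23.SM
open Pool.Agent.H31.SW (PP dK)
open Pool.Agent.H29.DW (cpar Ci Wt one_le_Ci V_AE V_GH)

section

variable {K : Type} [Field K] [NumberField K]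

private theorem one_le_Nf {f : Ideal (𝓞 K)} (hf : f ≠ ⊥) : 1 ≤ Nf K f := by
  unfold Nf
  have h : Ideal.absNorm f ≠ 0 := fun h => hf (Ideal.absNorm_eq_zero_iff.1 h)
  exact_mod_cast Nat.one_le_iff_ne_zero.2 h

private theorem one_le_discr : 1 ≤ |(discr K : ℝ)| := by
  have h : (1 : ℤ) ≤ |discr K| := Int.one_le_abs (discr_ne_zero K)
  have h2 : ((1 : ℤ) : ℝ) ≤ ((|discr K| : ℤ) : ℝ) := by exact_mod_cast h
  simpa using h2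

private theorem norm_psi_le {f : Ideal (𝓞 K)} (χ : HG K f) (J : Ideal (𝓞 K)) : ‖χ.ψ J‖ ≤ 1 := by
  by_cases h1 : J = ⊥
  · rw [h1, χ.map_bot, norm_zero]
    exact zero_le_one
  · by_cases h2 : J ⊔ f = ⊤
    · exact (χ.norm_one J h1 h2).le
    · rw [χ.eq_zero J h2, norm_zero]
      exact zero_le_one

private theorem gf_diff (hGE : U_GE) {f : Ideal (𝓞 K)} (hf : f ≠ ⊥) (χ : HG K f) (s : ℂ)
    (hs : 0 < s.re) : DifferentiableAt ℂ (gf χ) s := by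
  have h1 := (hGE K χ.k (-χ.ν) χ.real_k).2.1 s hs
  have h2 := (hGE K χ.k χ.ν χ.real_k).1
  have h3 : DifferentiableAt ℂ (fun s => (gG K χ.k χ.ν (1 - s))⁻¹) s :=
    (h2 (1 - s)).comp s (by fun_prop)
  have h4 : DifferentiableAt ℂ
      (fun s : ℂ => (((|(discr K : ℝ)| * Nf K f : ℝ) : ℂ)) ^ (s - 1 / 2)) s := by
    refine DifferentiableAt.const_cpow (by fun_prop) (Or.inl ?_)
    have h5 := one_le_Nf hf
    have h6 := one_le_discr (K := K)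
    exact_mod_cast (by positivity : |(discr K : ℝ)| * Nf K f ≠ 0)
  have h5 : gf χ = fun s => (-I) ^ dk K χ.k *
      (((|(discr K : ℝ)| * Nf K f : ℝ) : ℂ)) ^ (s - 1 / 2) *
        (gG K χ.k (-χ.ν) s * (gG K χ.k χ.ν (1 - s))⁻¹) := by
    funext s
    rfl
  rw [h5]
  exact ((differentiableAt_const _).mul h4).mul (h1.2.mul h3)

/-- the approximate functional equation -/
theorem split (n : ℕ) (κ C₀ C₃ : ℝ) (hC₀ : 0 ≤ C₀) (hκ0 : 0 < κ) (hκ1 : κ ≤ 1)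
    (hA : ∀ κ : ℝ, 0 < κ → κ ≤ 1 → ∀ (ι : Type) (L E G : ℂ → ℂ)
    (a a' : ι → ℂ) (N : ι → ℝ) (X t B : ℝ), 0 < X → 1 ≤ B → (∀ i, 1 ≤ N i) →
    (∀ σ : ℝ, 1 < σ → Summable (fun i => N i ^ (-σ))) → (∃ A : ℝ, ∀ i, ‖a i‖ ≤ A ∧ ‖a' i‖ ≤ A) →
    Differentiable ℂ E → (∀ s : ℂ, s ≠ 0 → s ≠ 1 → E s = s * (s - 1) * L s) →
    (∃ C A : ℝ, ∀ s : ℂ, |s.re| ≤ 3 → ‖E s‖ ≤ C * Real.exp (A * |s.im|)) →
    (∀ s : ℂ, 1 < s.re → L s = ∑' i, a i * (N i : ℂ) ^ (-s)) →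
    (∀ s : ℂ, 1 < s.re → L (1 - s) = G s * ∑' i, a' i * (N i : ℂ) ^ (-s)) →
    (∀ s : ℂ, 0 < s.re → DifferentiableAt ℂ G s) →
    (∀ s : ℂ, 1 / 2 ≤ s.re → s.re ≤ 3 / 2 → ‖G s‖ ≤
      B * X ^ (2 * (s.re - 1 / 2)) * (1 + |s.im + t|) ^ n) →
    ∃ v v' : ℝ → ℂ, Wt κ X (C₀ * κ⁻¹ * B) v ∧ Wt κ X (C₀ * κ⁻¹ * B) v' ∧
      L (1 / 2 + t * I) = ∑' i, a i * v (N i) * (N i : ℂ) ^ (-(t * I : ℂ)) +
        ∑' i, a' i * v' (N i) * (N i : ℂ) ^ (t * I : ℂ))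
    (hG : ∀ (K : Type) [Field K] [NumberField K],
      Module.finrank ℚ K = n → ∀ (k : InfinitePlace K → ℤ) (ν : InfinitePlace K → ℝ) (t : ℝ),
      (∀ v : InfinitePlace K, v.IsReal → k v = 0 ∨ k v = 1) → ∀ s : ℂ, 1 / 2 ≤ s.re →
      s.re ≤ 3 / 2 → ‖gG K k (-ν) s * (gG K k ν (1 - s))⁻¹‖ ≤
        C₃ * Ci k ν t ^ (s.re - 1 / 2) * (1 + |s.im + t|) ^ n)
    (hDS : T_DS) (hDC : U_DC) (hGE : U_GE) (hn : Module.finrank ℚ K = n) {f : Ideal (𝓞 K)}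
    (hf0 : f ≠ ⊥) (D : Sys K f) (χ : HG K f) (L : ℂ → ℂ) (hIL : IsL D χ L) (t : ℝ) :
    ∃ v v' : ℝ → ℂ,
      Wt κ (Real.sqrt (|(discr K : ℝ)| * Nf K f * Ci χ.k χ.ν t)) (C₀ * κ⁻¹ * max 1 C₃) v ∧
      Wt κ (Real.sqrt (|(discr K : ℝ)| * Nf K f * Ci χ.k χ.ν t)) (C₀ * κ⁻¹ * max 1 C₃) v' ∧
      L (1 / 2 + t * I) =
        ∑' J : NZI K, χ.ψ J.1 * v (Ideal.absNorm J.1) *
          (Ideal.absNorm J.1 : ℂ) ^ (-(t * I : ℂ)) +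
        ∑' J : NZI K, cd D χ J.1 * v' (Ideal.absNorm J.1) *
          (Ideal.absNorm J.1 : ℂ) ^ (t * I : ℂ) := by
  obtain ⟨h1, h2, ⟨E, hE1, hE2, hE3⟩, h4⟩ := hIL
  have hd1 := one_le_discr (K := K)
  have hNf1 := one_le_Nf hf0
  have hCi1 := one_le_Ci χ.k χ.ν t
  set Q : ℝ := |(discr K : ℝ)| * Nf K f * Ci χ.k χ.ν t with hQd
  have hQ1 : 1 ≤ Q := by
    rw [hQd]
    exact one_le_mul_of_one_le_of_one_le (one_le_mul_of_one_le_of_one_le hd1 hNf1) hCi1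
  have hQ0 : 0 < Q := by linarith
  set X : ℝ := Real.sqrt Q with hX
  have hX0 : 0 < X := Real.sqrt_pos.2 hQ0
  -- the factor of the functional equation
  have hgf : ∀ s : ℂ, 1 / 2 ≤ s.re → s.re ≤ 3 / 2 → ‖gf χ s‖ ≤
      max 1 C₃ * X ^ (2 * (s.re - 1 / 2)) * (1 + |s.im + t|) ^ n := by
    intro s hs hs'
    have h5 := hG K hn χ.k χ.ν t χ.real_k s hs hs'
    have hdN : 0 < |(discr K : ℝ)| * Nf K f := by positivity
    unfold gf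
    rw [norm_mul, norm_mul, norm_pow, norm_neg, Complex.norm_I, one_pow, one_mul,
      Complex.norm_cpow_eq_rpow_re_of_pos hdN]
    have h6 : (s - 1 / 2 : ℂ).re = s.re - 1 / 2 := by
      rw [Complex.sub_re]
      norm_num
    rw [h6]
    have h7 : X ^ (2 * (s.re - 1 / 2)) = (|(discr K : ℝ)| * Nf K f) ^ (s.re - 1 / 2) *
        Ci χ.k χ.ν t ^ (s.re - 1 / 2) := by
      rw [hX, Real.sqrt_eq_rpow, ← Real.rpow_mul hQ0.le, hQd,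
        ← Real.mul_rpow hdN.le (by linarith)]
      congr 1
      ring
    rw [h7]
    have h8 : C₃ * Ci χ.k χ.ν t ^ (s.re - 1 / 2) * (1 + |s.im + t|) ^ n ≤
        max 1 C₃ * Ci χ.k χ.ν t ^ (s.re - 1 / 2) * (1 + |s.im + t|) ^ n := by
      gcongr
      exact le_max_right _ _
    calc (|(discr K : ℝ)| * Nf K f) ^ (s.re - 1 / 2) *
          ‖gG K χ.k (-χ.ν) s * (gG K χ.k χ.ν (1 - s))⁻¹‖
        ≤ (|(discr K : ℝ)| * Nf K f) ^ (s.re - 1 / 2) *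
          (max 1 C₃ * Ci χ.k χ.ν t ^ (s.re - 1 / 2) * (1 + |s.im + t|) ^ n) :=
          mul_le_mul_of_nonneg_left (h5.trans h8) (by positivity)
      _ = _ := by ring
  obtain ⟨v, v', hv, hv', hL⟩ := hA κ hκ0 hκ1 (NZI K) L E (gf χ) (fun J => χ.ψ J.1)
    (fun J => cd D χ J.1) (fun J => (Ideal.absNorm J.1 : ℝ)) X t (max 1 C₃) hX0
    (le_max_left _ _)
    (fun J => one_le_Nf J.2)
    (fun σ hσ => by
      have h5 := (hDS K (σ : ℂ) (by simpa using hσ)).1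
      refine h5.congr fun J => ?_
      have h6 : (0 : ℝ) < (Ideal.absNorm J.1 : ℝ) := by
        have := one_le_Nf J.2
        unfold Nf at this
        linarith
      have h7 := Complex.norm_cpow_eq_rpow_re_of_pos h6 (-(σ : ℂ))
      rw [Complex.ofReal_natCast] at h7
      rw [h7]
      simp only [Complex.neg_re, Complex.ofReal_re])
    ⟨max 1 (Real.sqrt (Nf K f)), fun J => ⟨(norm_psi_le χ J.1).trans (le_max_left _ _),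
      ((hDC K _ hf0 D χ).1 J.1).trans (le_max_right _ _)⟩⟩
    hE1 hE2 (hE3 3)
    (fun s hs => by
      rw [h1 s hs]
      unfold HG.series
      refine tsum_congr fun J => ?_
      rw [Complex.ofReal_natCast])
    (fun s hs => by
      rw [h4 s hs]
      unfold serd
      exact congrArg (fun z => gf χ s * z) (tsum_congr fun J => by
        rw [Complex.ofReal_natCast]))
    (fun s hs => gf_diff hGE hf0 χ s hs) hgf
  refine ⟨v, v', hv, hv', ?_⟩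
  rw [hL]
  have hS : ∑' J : NZI K, χ.ψ J.1 * v (Ideal.absNorm J.1 : ℝ) *
      (((Ideal.absNorm J.1 : ℝ) : ℂ)) ^ (-(t * I : ℂ)) =
      ∑' J : NZI K, χ.ψ J.1 * v (Ideal.absNorm J.1) *
      (Ideal.absNorm J.1 : ℂ) ^ (-(t * I : ℂ)) :=
    tsum_congr fun J => by rw [Complex.ofReal_natCast]
  have hS' : ∑' J : NZI K, cd D χ J.1 * v' (Ideal.absNorm J.1 : ℝ) *
      (((Ideal.absNorm J.1 : ℝ) : ℂ)) ^ (t * I : ℂ) =
      ∑' J : NZI K, cd D χ J.1 * v' (Ideal.absNorm J.1) *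
      (Ideal.absNorm J.1 : ℂ) ^ (t * I : ℂ) :=
    tsum_congr fun J => by rw [Complex.ofReal_natCast]
  rw [hS, hS']

end

/-- the numbers -/
theorem num {d N h C C₄ C₅ B₀ B₁ B₂ P : ℝ} (hd : 1 ≤ d) (hN : 1 ≤ N) (hh : 0 ≤ h)
    (hC : 0 ≤ C) (hC₄ : 0 ≤ C₄) (hC₅ : 1 ≤ C₅) (hB₀ : 0 ≤ B₀) (hB₁ : 0 ≤ B₁) (hP : 0 ≤ P)
    (hB₂ : 3 + 4 * B₁ ≤ B₂) (hR : h ≤ C₄ * d ^ (3 / 2 : ℝ)) :
    C * ((B₀ * h) ^ 2 * (C₅ * (d * N) ^ 3 * d * N) ^ B₁ * P) ≤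
      C * (B₀ * C₄) ^ 2 * C₅ ^ B₁ * ((d * N) ^ B₂ * P) := by
  have hd0 : 0 < d := by linarith
  have hN0 : 0 < N := by linarith
  have hdN1 : 1 ≤ d * N := one_le_mul_of_one_le_of_one_le hd hN
  have hdN0 : 0 < d * N := by positivity
  have e1 : (C₅ * (d * N) ^ 3 * d * N) ^ B₁ = C₅ ^ B₁ * (d * N) ^ (4 * B₁) := by
    have : C₅ * (d * N) ^ 3 * d * N = C₅ * (d * N) ^ (4 : ℝ) := by
      have h4 : (d * N) ^ (4 : ℝ) = (d * N) ^ (4 : ℕ) := by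
        rw [← Real.rpow_natCast]
        norm_num
      rw [h4]
      ring
    rw [this, Real.mul_rpow (by linarith) (by positivity), ← Real.rpow_mul hdN0.le]
  have e2 : (B₀ * h) ^ 2 ≤ (B₀ * C₄) ^ 2 * (d * N) ^ (3 : ℝ) := by
    have h1 : B₀ * h ≤ B₀ * (C₄ * (d * N) ^ (3 / 2 : ℝ)) := by
      apply mul_le_mul_of_nonneg_left _ hB₀
      refine hR.trans ?_
      apply mul_le_mul_of_nonneg_left _ hC₄
      apply Real.rpow_le_rpow hd0.le _ (by norm_num)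
      exact le_mul_of_one_le_right hd0.le hN
    calc (B₀ * h) ^ 2 ≤ (B₀ * (C₄ * (d * N) ^ (3 / 2 : ℝ))) ^ 2 :=
          pow_le_pow_left₀ (by positivity) h1 2
      _ = (B₀ * C₄) ^ 2 * ((d * N) ^ (3 / 2 : ℝ)) ^ 2 := by ring
      _ = (B₀ * C₄) ^ 2 * (d * N) ^ (3 : ℝ) := by
          rw [← Real.rpow_natCast ((d * N) ^ (3 / 2 : ℝ)), ← Real.rpow_mul hdN0.le]
          norm_num
  have e3 : (d * N) ^ (3 : ℝ) * (d * N) ^ (4 * B₁) ≤ (d * N) ^ B₂ := by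
    rw [← Real.rpow_add hdN0]
    exact Real.rpow_le_rpow_of_exponent_le hdN1 hB₂
  have hC₅0 : 0 < C₅ := by linarith
  rw [e1]
  calc C * ((B₀ * h) ^ 2 * (C₅ ^ B₁ * (d * N) ^ (4 * B₁)) * P) ≤
      C * (((B₀ * C₄) ^ 2 * (d * N) ^ (3 : ℝ)) * (C₅ ^ B₁ * (d * N) ^ (4 * B₁)) * P) := by
        gcongr
    _ = C * (B₀ * C₄) ^ 2 * C₅ ^ B₁ * (((d * N) ^ (3 : ℝ) * (d * N) ^ (4 * B₁)) * P) := by
        ring
    _ ≤ C * (B₀ * C₄) ^ 2 * C₅ ^ B₁ * ((d * N) ^ B₂ * P) := by gcongr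

theorem pf_LT (hBP : S_BP) (hBQ : S_BQ) (hSP : M_SP) (hAE : Pool.Agent.H29.DW.V_AE)
    (hGH : Pool.Agent.H29.DW.V_GH) (hHR : Pool.Agent.H29.TC.T_HR)
    (hDS : Pool.Agent.H25.HK.T_DS) (hDC : Pool.Agent.H23.LC.U_DC)
    (hGE : Pool.Agent.H23.LC.U_GE) : S_LT := by
  intro n hn0
  obtain ⟨B₁, hB₁, hP⟩ := hBP n hn0
  obtain ⟨B₂, hB₂, hQ⟩ := hBQ n hn0
  obtain ⟨C₅, hC₅, hS⟩ := hSP n hn0
  obtain ⟨C₀, hC₀, hA⟩ := hAE n
  obtain ⟨C₃, hC₃, hG⟩ := hGH n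
  obtain ⟨C₄, hR⟩ := hHR n 1 one_pos
  refine ⟨3 + 4 * (B₁ + B₂), by positivity, fun ε hε hε1 => ?_⟩
  obtain ⟨κ, hκ⟩ : ∃ κ : ℝ, κ = ε / 24 := ⟨_, rfl⟩
  have hκ0 : 0 < κ := by rw [hκ]; positivity
  have hκ1 : κ ≤ 1 := by rw [hκ]; linarith
  obtain ⟨C₁, hC₁, hP⟩ := hP ε κ hε hε1 hκ0 hκ.le
  obtain ⟨C₂, hC₂, hQ⟩ := hQ ε κ hε hε1 hκ0 hκ.le
  obtain ⟨B₀, hB₀d⟩ : ∃ B₀ : ℝ, B₀ = C₀ * κ⁻¹ * max 1 C₃ := ⟨_, rfl⟩
  have hB₀ : 0 ≤ B₀ := by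
    rw [hB₀d]
    have := le_max_left 1 C₃
    positivity
  obtain ⟨C₆, hC₆⟩ : ∃ C₆ : ℝ, C₆ = max 0 C₄ := ⟨_, rfl⟩
  have hC₆0 : 0 ≤ C₆ := by rw [hC₆]; exact le_max_left _ _
  refine ⟨2 * (C₁ * (B₀ * C₆) ^ 2 * C₅ ^ B₁ + C₂ * (B₀ * C₆) ^ 2 * C₅ ^ B₂), ?_, ?_⟩
  · have : 0 ≤ C₅ := by linarith
    positivity
  intro K _ _ hn f hf0 Y L hL H τ S hτ hcls hclo hsp
  have hd1 : 1 ≤ dK K := one_le_discr (K := K)
  have hNf1 := one_le_Nf hf0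
  have hPP : 0 ≤ PP τ ^ ε * PP H := by
    apply mul_nonneg
    · apply Real.rpow_nonneg
      unfold PP
      exact Finset.prod_nonneg fun v _ => pow_nonneg (by linarith [(hτ v).1]) _
    · unfold PP
      exact Finset.prod_nonneg fun v _ => pow_nonneg (by linarith [(hτ v).2.1]) _
  have key : ∀ q : HG K f × ℝ, ∃ v v' : ℝ → ℂ,
      Wt κ (Real.sqrt (|(discr K : ℝ)| * Nf K f * Ci q.1.k q.1.ν q.2)) B₀ v ∧
      Wt κ (Real.sqrt (|(discr K : ℝ)| * Nf K f * Ci q.1.k q.1.ν q.2)) B₀ v' ∧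
      L q.1 (1 / 2 + q.2 * I) =
        ∑' J : NZI K, q.1.ψ J.1 * v (Ideal.absNorm J.1) *
          (Ideal.absNorm J.1 : ℂ) ^ (-(q.2 * I : ℂ)) +
        ∑' J : NZI K, cd Y q.1 J.1 * v' (Ideal.absNorm J.1) *
          (Ideal.absNorm J.1 : ℂ) ^ (q.2 * I : ℂ) := by
    intro q
    rw [hB₀d]
    exact split n κ C₀ C₃ hC₀ hκ0 hκ1 hA hG hDS hDC hGE hn hf0 Y q.1 (L q.1) (hL q.1) q.2
  choose v v' hv hv' hsplit using key
  obtain ⟨D, hD⟩ : ∃ D : ℝ, D = C₅ * (dK K * Nf K f) ^ 3 := ⟨_, rfl⟩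
  have hdN : 1 ≤ dK K * Nf K f := one_le_mul_of_one_le_of_one_le hd1 hNf1
  have hD1 : 1 ≤ D := by
    rw [hD]
    exact one_le_mul_of_one_le_of_one_le hC₅ (one_le_pow₀ hdN)
  have hspc : Spc S cq (fun _ => 1) D := by
    rw [hD]
    exact hS K hn f hf0 S hsp
  have hp1 := hP K hn f hf0 H τ S B₀ D v hτ hcls hclo hspc hD1 hB₀ (fun q _ => hv q)
  have hq1 := hQ K hn f hf0 Y H τ S B₀ D v' hτ hcls hclo hspc hD1 hB₀ (fun q _ => hv' q)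
  have hreg : 0 < regulator K := regulator_pos K
  have hh0 : 0 ≤ (classNumber K : ℝ) * regulator K := by positivity
  have hR' : (classNumber K : ℝ) * regulator K ≤ C₆ * dK K ^ (3 / 2 : ℝ) := by
    refine (hR K hn).trans ?_
    have e1 : (1 / 2 + 1 : ℝ) = 3 / 2 := by norm_num
    rw [e1, hC₆]
    unfold dK
    gcongr
    exact le_max_right _ _
  rw [hD] at hp1 hq1
  rw [mul_assoc _ (PP τ ^ ε) (PP H)] at hp1 hq1
  have hp2 := hp1.trans (num (B₂ := 3 + 4 * (B₁ + B₂)) hd1 hNf1 hh0 hC₁ hC₆0 hC₅ hB₀ hB₁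
    hPP (by linarith) hR')
  have hq2 := hq1.trans (num (B₂ := 3 + 4 * (B₁ + B₂)) hd1 hNf1 hh0 hC₂ hC₆0 hC₅ hB₀ hB₂
    hPP (by linarith) hR')
  have hsum : ∑ q ∈ S, ‖L q.1 (1 / 2 + q.2 * I)‖ ^ 2 ≤
      2 * (∑ q ∈ S, ‖∑' J : NZI K, q.1.ψ J.1 * v q (Ideal.absNorm J.1) *
          (Ideal.absNorm J.1 : ℂ) ^ (-(q.2 * I : ℂ))‖ ^ 2 +
        ∑ q ∈ S, ‖∑' J : NZI K, cd Y q.1 J.1 * v' q (Ideal.absNorm J.1) *
          (Ideal.absNorm J.1 : ℂ) ^ (q.2 * I : ℂ)‖ ^ 2) := by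
    rw [← Finset.sum_add_distrib, Finset.mul_sum]
    refine Finset.sum_le_sum fun q _ => ?_
    rw [hsplit q]
    refine (pow_le_pow_left₀ (norm_nonneg _) (norm_add_le _ _) 2).trans ?_
    exact add_sq_le
  calc ∑ q ∈ S, ‖L q.1 (1 / 2 + q.2 * I)‖ ^ 2 ≤ _ := hsum
    _ ≤ 2 * (C₁ * (B₀ * C₆) ^ 2 * C₅ ^ B₁ *
          ((dK K * Nf K f) ^ (3 + 4 * (B₁ + B₂)) * (PP τ ^ ε * PP H)) +
        C₂ * (B₀ * C₆) ^ 2 * C₅ ^ B₂ *
          ((dK K * Nf K f) ^ (3 + 4 * (B₁ + B₂)) * (PP τ ^ ε * PP H))) :=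
        mul_le_mul_of_nonneg_left (add_le_add hp2 hq2) (by positivity)
    _ = _ := by ring

end Pool.Agent.H70.SM.LT
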